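import Pool.Agent.helper97.KR.Spec

/-!
# Row `kr:SP1` (MP_974a61_co)
-/

set_option autoImplicit false

namespace Pool.Agent.helper97.KR

open Finset Classical

noncomputable section

theorem SP1_set {V E : Type} (ends : E → Sym2 V) (U : Finset V) (T : Finset E) :
    {e | e ∈ (T : Set E) ∧ ¬ ∀ v ∈ ends e, v ∈ U} = ((T \ ins ends T U : Finset E) : Set E) := by
  ext e
  simp only [Set.mem_setOf_eq, Finset.mem_coe, Finset.mem_sdiff, ins, Finset.mem_filter]
  constructor
  · rintro ⟨h1, h2⟩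
    exact ⟨h1, fun h3 => h2 h3.2⟩
  · rintro ⟨h1, h2⟩
    exact ⟨h1, fun h3 => h2 ⟨h1, h3⟩⟩

theorem SP1_con (hCT1 : CT1_stmt) {V E : Type} (ends : E → Sym2 V) (S U : Finset V) (t : V) (T : Finset E)
    (hc : Con ends S (T : Set E)) (ht : t ∈ U) (hU : U ⊆ S) :
    Con (cE ends U t) (cS S U t) ((T \ ins ends T U : Finset E) : Set E) := by
  have h1 := hCT1 V E ends S U t (T : Set E) ht hU hc
  rw [SP1_set] at h1
  exact h1

theorem SP1_a (hMIN : MIN_stmt) (hCT1 : CT1_stmt) {V E : Type} (ends : E → Sym2 V) (S U : Finset V) (t : V)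
    (T : Finset E) (hs : ∀ e ∈ T, ∀ v ∈ ends e, v ∈ S) (hc : Con ends S (T : Set E)) (hT : T.card + 1 = S.card)
    (ht : t ∈ U) (hU : U ⊆ S) : (ins ends T U).card + 1 ≤ U.card := by
  have h1 := SP1_con hCT1 ends S U t T hc ht hU
  have h2 := hMIN V E (cE ends U t) (cS S U t) (T \ ins ends T U) (by
    intro e he v hv
    unfold cE at hv
    rw [Sym2.mem_map] at hv
    obtain ⟨w, hw, rfl⟩ := hv
    have hwS := hs e (Finset.mem_sdiff.1 he).1 w hw
    unfold cp cS
    by_cases hwU : w ∈ U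
    · rw [if_pos hwU]
      exact Finset.mem_insert_self _ _
    · rw [if_neg hwU]
      exact Finset.mem_insert_of_mem (Finset.mem_sdiff.2 ⟨hwS, hwU⟩)) h1
  have h3 : (cS S U t).card = S.card - U.card + 1 := by
    unfold cS
    rw [Finset.card_insert_of_notMem (fun h => (Finset.mem_sdiff.1 h).2 ht),
      Finset.card_sdiff_of_subset hU]
  have h4 : ins ends T U ⊆ T := Finset.filter_subset _ _
  have h5 : (T \ ins ends T U).card = T.card - (ins ends T U).card := Finset.card_sdiff_of_subset h4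
  have h6 := Finset.card_le_card h4
  have h7 := Finset.card_le_card hU
  omega

theorem SP1 (hMIN : MIN_stmt) (hCT1 : CT1_stmt) : SP1_stmt := by
  intro V E ends S T hs hc hT U hU t ht
  refine ⟨SP1_a hMIN hCT1 ends S U t T hs hc hT ht hU, fun heq => ⟨?_, SP1_con hCT1 ends S U t T hc ht hU⟩⟩
  intro u hu v hv
  by_contra hcon
  obtain ⟨A, hA⟩ : ∃ A : Finset V, A = U.filter fun w =>
      Relation.ReflTransGen (Jn ends (ins ends T U : Set E)) u w := ⟨_, rfl⟩
  have hAU : A ⊆ U := by rw [hA]; exact Finset.filter_subset _ _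
  have huA : u ∈ A := by
    rw [hA, Finset.mem_filter]
    exact ⟨hu, Relation.ReflTransGen.refl⟩
  have hvB : v ∈ U \ A := by
    rw [Finset.mem_sdiff]
    refine ⟨hv, fun h => hcon ?_⟩
    rw [hA, Finset.mem_filter] at h
    exact h.2
  have hBU : U \ A ⊆ U := Finset.sdiff_subset
  have h1 := SP1_a hMIN hCT1 ends S A u T hs hc hT huA (hAU.trans hU)
  have h2 := SP1_a hMIN hCT1 ends S (U \ A) v T hs hc hT hvB (hBU.trans hU)
  have hstep : ∀ a b : V, ∀ e ∈ ins ends T U, ends e = s(a, b) → a ∈ A → b ∈ A := by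
    intro a b e he hab haA
    have h3 := (Finset.mem_filter.1 he).2
    have hbU : b ∈ U := h3 b (by rw [hab]; exact Sym2.mem_mk_right a b)
    rw [hA, Finset.mem_filter] at haA ⊢
    exact ⟨hbU, haA.2.tail ⟨e, Finset.mem_coe.2 he, hab⟩⟩
  have h3 : ins ends T U ⊆ ins ends T A ∪ ins ends T (U \ A) := by
    intro e he
    obtain ⟨heT, heU⟩ := Finset.mem_filter.1 he
    obtain ⟨a, b, hab⟩ : ∃ a b, ends e = s(a, b) := by
      induction hz : ends e using Sym2.ind with
      | _ a b => exact ⟨a, b, rfl⟩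
    have haU : a ∈ U := heU a (by rw [hab]; exact Sym2.mem_mk_left a b)
    have hbU : b ∈ U := heU b (by rw [hab]; exact Sym2.mem_mk_right a b)
    rw [Finset.mem_union]
    by_cases haA : a ∈ A
    · left
      have hbA := hstep a b e he hab haA
      refine Finset.mem_filter.2 ⟨heT, fun w hw => ?_⟩
      rw [hab, Sym2.mem_iff] at hw
      rcases hw with rfl | rfl
      · exact haA
      · exact hbA
    · right
      have hbA : b ∉ A := fun h => haA (hstep b a e he (by rw [hab, Sym2.eq_swap]) h)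
      refine Finset.mem_filter.2 ⟨heT, fun w hw => ?_⟩
      rw [hab, Sym2.mem_iff] at hw
      rcases hw with rfl | rfl
      · exact Finset.mem_sdiff.2 ⟨haU, haA⟩
      · exact Finset.mem_sdiff.2 ⟨hbU, hbA⟩
  have h4 := (Finset.card_le_card h3).trans (Finset.card_union_le _ _)
  have h5 : (U \ A).card = U.card - A.card := Finset.card_sdiff_of_subset hAU
  have h6 := Finset.card_le_card hAU
  omega

end

end Pool.Agent.helper97.KR
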